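import Pool.Agent.N569.AB.Mirror
import Pool.Agent.N569.AO.Cnt

/-!
# Reduced weighted trees with large weights
-/

set_option autoImplicit false

namespace Pool.Agent.J4.H92.HT

open LaurentPolynomial Pool.Agent.H891R2.Jones Pool.Agent.H891R2.MT Pool.Agent.H891R2.RF
open Pool.Agent.R811.Abc Pool.Agent.N569.AB Pool.Agent.N569.AO

/-- the number of the vertices whose weight is not `0` -/
def num : Tree → ℕ
  | .row a => if a = 0 then 0 else 1
  | .graft v c => num v + num c
  | .insert v _ _ => num v

/-- the weights different from `0` have absolute values at least `C` -/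
def Twisted (C : ℕ) : Tree → Prop
  | .row a => a = 0 ∨ (C : ℤ) ≤ |a|
  | .graft v c => Twisted C v ∧ Twisted C c
  | .insert v _ _ => Twisted C v

/-- no tangles are inserted, and every vertex of weight `0` different from the root has at least two
children -/
def Red : Tree → Prop
  | .row _ => True
  | .graft v c => Red v ∧ Red c ∧ (c.wt ≠ 0 ∨ 2 ≤ c.kids)
  | .insert _ _ _ => False

/-- A weighted plane tree (without inserted tangles) all of whose vertices of weight `0` have at least
three neighbours: the vertices of weight `0` different from the root have at least two children, and the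
root, if its weight is `0`, has at least three children. -/
def Reduced (t : Tree) : Prop := Red t ∧ (t.wt ≠ 0 ∨ 3 ≤ t.kids)

/-- The type of a tree: `some k` if the weight of the root is `0` and the `k` children of the root have the
type `none`, and `none` otherwise. -/
def typ : Tree → Option ℕ
  | .row a => if a = 0 then some 0 else none
  | .graft v c => if typ c = none then (typ v).map (· + 1) else none
  | .insert _ _ _ => none

theorem typ_some (t : Tree) (k : ℕ) (h : typ t = some k) : t.wt = 0 ∧ t.kids = k := by
  induction t generalizing k with
  | row a =>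
    simp only [typ] at h
    split_ifs at h with ha
    simp only [Option.some.injEq] at h
    exact ⟨ha, h⟩
  | graft v c ihv ihc =>
    simp only [typ] at h
    split_ifs at h with hc
    obtain ⟨j, hj, hjk⟩ := Option.map_eq_some_iff.1 h
    obtain ⟨h1, h2⟩ := ihv j hj
    exact ⟨h1, by simp only [Tree.kids]; omega⟩
  | insert v S τ ih => simp [typ] at h

/-- all the weights are far from the periods of `A` -/
def Far (A : ℂˣ) (η : ℝ) : Tree → Prop
  | .row a => a = 0 ∨ η ≤ ‖(-1 : ℂ) ^ a.natAbs * ((A ^ (-4 * a) : ℂˣ) : ℂ) - 1‖
  | .graft v c => Far A η v ∧ Far A η c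
  | .insert v _ _ => Far A η v

theorem Red.size_le (t : Tree) (h : Red t) :
    (t.wt ≠ 0 → size t + t.kids + 1 ≤ 2 * num t) ∧ (t.wt = 0 → size t + t.kids ≤ 2 * num t + 1) := by
  induction t with
  | row a =>
    constructor
    · intro ha
      have : a ≠ 0 := ha
      simp [size, Tree.kids, num, this]
    · intro ha
      have : a = 0 := ha
      simp [size, Tree.kids, num, this]
  | graft v c ihv ihc =>
    obtain ⟨hv, hc, hd⟩ := h
    have h1 := ihv hv
    have h2 := ihc hc
    have h3 : size c + 1 ≤ 2 * num c := by
      by_cases hw : c.wt = 0
      · have := h2.2 hw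
        rcases hd with hd | hd
        · exact absurd hw hd
        · omega
      · have := h2.1 hw
        omega
    simp only [size, Tree.kids, num, Tree.wt]
    constructor
    · intro hw
      have := h1.1 hw
      omega
    · intro hw
      have := h1.2 hw
      omega
  | insert v S τ ih => exact absurd h (fun h => h)

/-- the set of the weights different from `0` -/
def wts : Tree → Finset ℤ
  | .row a => if a = 0 then ∅ else {a}
  | .graft v c => wts v ∪ wts c
  | .insert v _ _ => wts v

theorem card_wts (t : Tree) : (wts t).card ≤ num t := by
  induction t with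
  | row a =>
    simp only [wts, num]
    split_ifs <;> simp
  | graft v c ihv ihc =>
    simp only [wts, num]
    exact (Finset.card_union_le _ _).trans (by omega)
  | insert v S τ ih => exact ih

theorem twisted_wts (C : ℕ) (t : Tree) (h : Twisted C t) : ∀ a ∈ wts t, (C : ℤ) ≤ |a| := by
  induction t with
  | row a =>
    intro b hb
    simp only [wts] at hb
    split_ifs at hb with ha
    · simp at hb
    · rw [Finset.mem_singleton] at hb
      subst hb
      exact h.resolve_left ha
  | graft v c ihv ihc =>
    intro b hb
    rcases Finset.mem_union.1 hb with hb | hb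
    · exact ihv h.1 b hb
    · exact ihc h.2 b hb
  | insert v S τ ih => exact ih h

theorem far_of_wts (A : ℂˣ) (η : ℝ) (t : Tree)
    (h : ∀ a ∈ wts t, η ≤ ‖(-1 : ℂ) ^ a.natAbs * ((A ^ (-4 * a) : ℂˣ) : ℂ) - 1‖) : Far A η t := by
  induction t with
  | row a =>
    by_cases ha : a = 0
    · exact Or.inl ha
    · exact Or.inr (h a (by simp [wts, ha]))
  | graft v c ihv ihc =>
    exact ⟨ihv fun a ha => h a (Finset.mem_union_left _ ha), ihc fun a ha => h a (Finset.mem_union_right _ ha)⟩
  | insert v S τ ih => exact ih h

end Pool.Agent.J4.H92.HT
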