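import Mathlib

/-!
# Points of the unit circle near `1` whose large powers stay away from `1`
-/

set_option autoImplicit false

namespace Pool.Agent.J4.H92.HT

open Complex

/-- the size of an interval and a distance for `k` powers -/
noncomputable def cc (k : ℕ) : ℝ := (1 / 3) ^ k

theorem cc_pos (k : ℕ) : 0 < cc k := by unfold cc; positivity

theorem cc_le_one (k : ℕ) : cc k ≤ 1 := by
  unfold cc
  exact pow_le_one₀ (by norm_num) (by norm_num)

theorem cc_succ (k : ℕ) : cc (k + 1) = cc k / 3 := by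
  unfold cc
  rw [pow_succ]
  ring

theorem cc_anti {k l : ℕ} (h : k ≤ l) : cc l ≤ cc k := by
  unfold cc
  exact pow_le_pow_of_le_one (by norm_num) (by norm_num) h

/-- two points whose angles differ by `θ` are far from each other -/
theorem dist_exp (s t : ℝ) (h : |s - t| ≤ 1) :
    2 / Real.pi * |s - t| ≤ ‖exp (s * I) - exp (t * I)‖ := by
  have h1 : exp (s * I) - exp (t * I) = exp (t * I) * (exp ((s - t : ℝ) * I) - 1) := by
    rw [mul_sub, mul_one, ← Complex.exp_add]
    congr 2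
    push_cast
    ring
  rw [h1, norm_mul, norm_exp_ofReal_mul_I, one_mul]
  have h2 : |Real.sin (s - t)| ≤ ‖exp ((s - t : ℝ) * I) - 1‖ := by
    have h3 : (exp ((s - t : ℝ) * I) - 1).im = Real.sin (s - t) := by
      rw [Complex.sub_im, Complex.exp_ofReal_mul_I_im]
      simp
    rw [← h3]
    exact Complex.abs_im_le_norm _
  refine le_trans ?_ h2
  have h4 : |Real.sin (s - t)| = Real.sin |s - t| := by
    rcases abs_cases (s - t) with ⟨h5, h6⟩ | ⟨h5, h6⟩
    · rw [h5, abs_of_nonneg]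
      apply Real.sin_nonneg_of_nonneg_of_le_pi h6
      rw [h5] at h
      linarith [Real.pi_gt_three]
    · rw [h5, Real.sin_neg, abs_of_nonpos]
      have := Real.sin_nonneg_of_nonneg_of_le_pi (x := -(s - t)) (by linarith)
        (by rw [h5] at h; linarith [Real.pi_gt_three])
      rw [Real.sin_neg] at this
      linarith
  rw [h4]
  apply Real.mul_le_sin (abs_nonneg _)
  linarith [Real.pi_gt_three]

theorem step (φ0 : ℝ) (C : ℝ) (hC : 2 ≤ φ0 * C) (hφ : 0 < φ0) (s : Finset ℤ) :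
    (∀ a ∈ s, C ≤ |(a : ℝ)|) → ∀ M : ℝ, C ≤ M → (∀ a ∈ s, |(a : ℝ)| ≤ M) →
      ∃ u : ℝ, 0 < u ∧ u + cc s.card / M < φ0 ∧ ∀ φ : ℝ, u ≤ φ → φ ≤ u + cc s.card / M →
        ∀ a ∈ s, cc s.card / 4 ≤ ‖exp ((a * φ : ℝ) * I) - 1‖ := by
  have hC0 : 0 < C := by
    by_contra hc
    nlinarith
  induction s using Finset.induction_on_max_value (f := fun a : ℤ => |(a : ℝ)|) with
  | empty =>
    intro _ M hM _
    refine ⟨φ0 / 4, by linarith, ?_, fun φ _ _ a ha => by simp at ha⟩
    have h1 : cc (Finset.card (∅ : Finset ℤ)) / M ≤ 1 / C := by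
      rw [Finset.card_empty]
      have : cc 0 = 1 := by simp [cc]
      rw [this]
      exact one_div_le_one_div_of_le hC0 hM
    have h2 : 1 / C ≤ φ0 / 2 := by
      rw [div_le_iff₀ hC0]
      linarith
    linarith
  | insert a s ha hmax ih =>
    intro hs M hM hsM
    have hCa : C ≤ |(a : ℝ)| := hs a (Finset.mem_insert_self a s)
    have haM : |(a : ℝ)| ≤ M := hsM a (Finset.mem_insert_self a s)
    have ha0 : 0 < |(a : ℝ)| := lt_of_lt_of_le hC0 hCa
    have hM0 : 0 < M := lt_of_lt_of_le hC0 hM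
    obtain ⟨u, hu0, hu1, hu2⟩ := ih (fun b hb => hs b (Finset.mem_insert_of_mem hb)) |(a : ℝ)| hCa
      (fun b hb => hmax b hb)
    rw [Finset.card_insert_of_notMem ha, cc_succ]
    have hc := cc_pos s.card
    have hc1 := cc_le_one s.card
    set c := cc s.card with hcdef
    -- `L = c / |a|`
    obtain ⟨L, hL⟩ : ∃ L : ℝ, L = c / |(a : ℝ)| := ⟨_, rfl⟩
    have hL0 : 0 < L := by rw [hL]; positivity
    have hLa : |(a : ℝ)| * L = c := by rw [hL]; field_simp
    rw [← hL] at hu1 hu2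
    have h3M : c / 3 / M ≤ L / 3 := by
      rw [hL, div_right_comm]
      apply div_le_div_of_nonneg_right _ (by norm_num)
      exact div_le_div_of_nonneg_left hc.le ha0 haM
    have hpos : 0 < c / 3 / M := by positivity
    have key : (∀ φ : ℝ, u ≤ φ → φ ≤ u + L / 3 → c / 3 / 4 ≤ ‖exp ((a * φ : ℝ) * I) - 1‖) ∨
        (∀ φ : ℝ, u + 2 * L / 3 ≤ φ → φ ≤ u + L → c / 3 / 4 ≤ ‖exp ((a * φ : ℝ) * I) - 1‖) := by
      by_contra hcon
      push Not at hcon
      obtain ⟨⟨φ, h1, h2, h3⟩, ⟨ψ, h4, h5, h6⟩⟩ := hcon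
      have h7 : ‖exp ((a * ψ : ℝ) * I) - exp ((a * φ : ℝ) * I)‖ < c / 3 / 4 + c / 3 / 4 := by
        have : exp ((a * ψ : ℝ) * I) - exp ((a * φ : ℝ) * I) =
          (exp ((a * ψ : ℝ) * I) - 1) - (exp ((a * φ : ℝ) * I) - 1) := by ring
        rw [this]
        exact lt_of_le_of_lt (norm_sub_le _ _) (add_lt_add h6 h3)
      have h8 : |(a * ψ : ℝ) - a * φ| = |(a : ℝ)| * (ψ - φ) := by
        rw [← mul_sub, abs_mul, abs_of_nonneg (a := ψ - φ) (by linarith)]
      have h9 : |(a : ℝ)| * (ψ - φ) ≤ c := by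
        rw [← hLa]
        exact mul_le_mul_of_nonneg_left (by linarith) ha0.le
      have h10 : c / 3 ≤ |(a : ℝ)| * (ψ - φ) := by
        have : c / 3 = |(a : ℝ)| * (L / 3) := by rw [← hLa]; ring
        rw [this]
        exact mul_le_mul_of_nonneg_left (by linarith) ha0.le
      have h11 := dist_exp (a * ψ) (a * φ) (by rw [h8]; linarith)
      rw [h8] at h11
      have h12 : 1 / 2 ≤ 2 / Real.pi := by
        rw [div_le_div_iff₀ (by norm_num) Real.pi_pos]
        linarith [Real.pi_le_four]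
      have h13 : 1 / 2 * (c / 3) ≤ 2 / Real.pi * (|(a : ℝ)| * (ψ - φ)) :=
        mul_le_mul h12 h10 (by positivity) (by positivity)
      linarith
    rcases key with key | key
    · refine ⟨u, hu0, by linarith, fun φ h1 h2 b hb => ?_⟩
      rcases Finset.mem_insert.1 hb with rfl | hb
      · exact key φ h1 (by linarith)
      · have := hu2 φ h1 (by linarith) b hb
        linarith
    · refine ⟨u + 2 * L / 3, by linarith, by linarith, fun φ h1 h2 b hb => ?_⟩
      rcases Finset.mem_insert.1 hb with rfl | hb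
      · exact key φ h1 (by linarith)
      · have := hu2 φ (by linarith) (by linarith) b hb
        linarith

/-- For every `n` there is a distance `η` such that for every `φ0 > 0`, for all sets of at most `n` integers
of large absolute value there is an angle `φ < φ0` with `|exp (i a φ) - 1| ≥ η` for all `a` in the set. -/
theorem exists_angle (n : ℕ) (φ0 : ℝ) (hφ : 0 < φ0) : ∃ C : ℕ, 0 < C ∧ ∀ s : Finset ℤ, s.card ≤ n →
    (∀ a ∈ s, (C : ℤ) ≤ |a|) → ∃ φ : ℝ, 0 < φ ∧ φ < φ0 ∧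
      ∀ a ∈ s, cc n / 4 ≤ ‖exp ((a * φ : ℝ) * I) - 1‖ := by
  obtain ⟨C, hC⟩ := exists_nat_gt (2 / φ0)
  have hC0 : (0 : ℝ) < C := lt_trans (by positivity) hC
  refine ⟨C, by exact_mod_cast hC0, fun s hs hsC => ?_⟩
  have h1 : 2 ≤ φ0 * C := by
    rw [div_lt_iff₀ hφ] at hC
    linarith
  obtain ⟨M, hM⟩ : ∃ M : ℝ, M = C + ∑ a ∈ s, |(a : ℝ)| := ⟨_, rfl⟩
  have hM1 : (C : ℝ) ≤ M := by
    rw [hM]
    have : 0 ≤ ∑ a ∈ s, |(a : ℝ)| := Finset.sum_nonneg fun _ _ => abs_nonneg _
    linarith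
  have hM2 : ∀ a ∈ s, |(a : ℝ)| ≤ M := by
    intro a ha
    have := Finset.single_le_sum (f := fun a : ℤ => |(a : ℝ)|) (fun _ _ => abs_nonneg _) ha
    rw [hM]
    linarith
  obtain ⟨u, hu0, hu1, hu2⟩ := step φ0 C h1 hφ s (fun a ha => by
    have := hsC a ha
    exact_mod_cast this) M hM1 hM2
  refine ⟨u, hu0, ?_, fun a ha => ?_⟩
  · have : 0 < cc s.card / M := div_pos (cc_pos _) (lt_of_lt_of_le hC0 hM1)
    linarith
  · have h2 := hu2 u le_rfl (by
      have : 0 < cc s.card / M := div_pos (cc_pos _) (lt_of_lt_of_le hC0 hM1)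
      linarith) a ha
    have := cc_anti hs
    linarith

end Pool.Agent.J4.H92.HT
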