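import Pool.Agent.J4.H92.HT.Main

/-!
# Highly twisted arborescent links: the normalised bracket
-/

set_option autoImplicit false

namespace Pool.Agent.J4.H92.HT

open LaurentPolynomial Pool.Agent.H891R2.Jones Pool.Agent.H891R2.MT Pool.Agent.H891R2.RF
open Pool.Agent.R811.Abc Pool.Agent.N569.AB Pool.Agent.N569.AO

/-- the sum of the absolute values of the coefficients -/
noncomputable def coeffSum (F : ℤ[T;T⁻¹]) : ℤ := ∑ j ∈ F.coeff.support, |F.coeff j|

theorem norm_evA_le (A : ℂˣ) (hA : ‖(A : ℂ)‖ = 1) (F : ℤ[T;T⁻¹]) : ‖evA A F‖ ≤ (coeffSum F : ℝ) := by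
  have h1 : F = ∑ j ∈ F.coeff.support, C (F.coeff j) * T j := by
    apply LaurentPolynomial.ext
    intro k
    rw [AddMonoidAlgebra.coeff_sum, Finsupp.finsetSum_apply]
    have h2 : ∀ j ∈ F.coeff.support, (C (F.coeff j) * T j : ℤ[T;T⁻¹]).coeff k =
        if j = k then F.coeff k else 0 := by
      intro j _
      rw [← single_eq_C_mul_T, AddMonoidAlgebra.coeff_single, Finsupp.single_apply]
      split_ifs with h
      · rw [h]
      · rfl
    rw [Finset.sum_congr rfl h2, Finset.sum_ite_eq' F.coeff.support k]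
    split_ifs with h
    · rfl
    · exact Finsupp.notMem_support_iff.1 h
  have h3 : evA A F = ∑ j ∈ F.coeff.support, ((F.coeff j : ℤ) : ℂ) * ((A ^ j : ℂˣ) : ℂ) := by
    conv_lhs => rw [h1]
    rw [map_sum]
    refine Finset.sum_congr rfl fun j _ => ?_
    rw [map_mul, evA_C, evA_T]
  rw [h3]
  refine (norm_sum_le _ _).trans ?_
  unfold coeffSum
  push_cast
  refine Finset.sum_le_sum fun j _ => ?_
  rw [norm_mul, norm_zpow, hA, one_zpow, mul_one, Complex.norm_intCast]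

/-- the bracket is large at a point of the unit circle where the loop value is small -/
theorem bracket_large (n : ℕ) (K : ℝ) : ∃ C : ℕ, ∀ t : Tree, Reduced t → num t ≤ n → Twisted C t →
    ∃ A : ℂˣ, ‖(A : ℂ)‖ = 1 ∧ ‖evA A dd‖ ≤ 1 ∧ K < ‖evA A t.link.std.bracket‖ := by
  have hη : 0 < cc n / 4 := by have := cc_pos n; positivity
  obtain ⟨ν, U, m, hν, hν1, hU, hm, hm1, H⟩ := main (cc n / 4) hη (2 * n + 1)
  obtain ⟨q, hq, hq1, Hq⟩ := H (1 / 4) (by norm_num) (by norm_num)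
  obtain ⟨K', hK'⟩ : ∃ K' : ℝ, K' = |K| + 1 := ⟨_, rfl⟩
  have hK0 : 0 < K' := by rw [hK']; positivity
  have hKK : K < K' := by rw [hK']; linarith [le_abs_self K]
  obtain ⟨φ0, hφ0⟩ : ∃ φ0 : ℝ, φ0 = min (min q (ν / 2)) (ν * m / 4 / K') := ⟨_, rfl⟩
  have hφ0p : 0 < φ0 := by
    rw [hφ0]
    exact lt_min (lt_min hq (by positivity)) (by positivity)
  obtain ⟨C, hC0, HC⟩ := exists_angle n φ0 hφ0p
  refine ⟨C, fun t ht hn hC => ?_⟩
  obtain ⟨φ, h1, h2, h3⟩ := HC (wts t) ((card_wts t).trans hn) (twisted_wts C t hC)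
  obtain ⟨A, hA, hAd, hAa⟩ := point φ
  have hφq : φ < q := h2.trans_le (by rw [hφ0]; exact (min_le_left _ _).trans (min_le_left _ _))
  have hφν : φ < ν / 2 := h2.trans_le (by rw [hφ0]; exact (min_le_left _ _).trans (min_le_right _ _))
  have hφK : φ < ν * m / 4 / K' := h2.trans_le (by rw [hφ0]; exact min_le_right _ _)
  have hφ1 : φ < 1 := by linarith
  obtain ⟨δ, hδdef⟩ : ∃ δ : ℝ, δ = -2 * Real.sin (φ / 2) := ⟨_, rfl⟩
  rw [← hδdef] at hAd
  have hsin : 0 < Real.sin (φ / 2) :=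
    Real.sin_pos_of_pos_of_lt_pi (by linarith) (by linarith [Real.pi_gt_three])
  have hsin2 : Real.sin (φ / 2) ≤ φ / 2 := Real.sin_le (by linarith)
  have hδ : δ ≠ 0 := by
    rw [hδdef]
    intro h
    nlinarith
  have hδabs : |δ| ≤ φ := by
    rw [hδdef, abs_of_neg (by linarith)]
    linarith
  have hδn : 0 < |δ| := abs_pos.2 hδ
  have hδ1 : |δ| ≤ 1 := by linarith
  have hδ2 : δ ^ 2 ≤ φ := by
    rw [← sq_abs]
    nlinarith
  have hsize : size t ≤ 2 * n + 1 := by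
    have := Red.size_le t ht.1
    by_cases hw : t.wt = 0
    · have := this.2 hw
      omega
    · have := this.1 hw
      omega
  obtain ⟨v, v1, v2, v3⟩ := Hq A δ hA hδ (by linarith) hAd t hsize ht.1
    (far_of_wts A _ t (fun a ha => by rw [hAa a]; exact h3 a ha))
  have h4 : t.link.std.bracket = dd * v.1 + v.2 := brH_of_Ten _ _ _ v1
  refine ⟨A, hA, ?_, ?_⟩
  · rw [hAd, Complex.norm_real, Real.norm_eq_abs]
    exact hδ1
  · rw [h4, map_add, map_mul, hAd]
    have h5 := root hδ hδ1 hν hν1 hm le_rfl (by linarith : δ ^ 2 ≤ ν / 2) v2 v3 (by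
      intro k hk
      obtain ⟨h6, h7⟩ := typ_some t k hk
      rcases ht.2 with h8 | h8
      · exact absurd h6 h8
      · omega)
    have h6 : |δ| * K' < ν * m / 4 := by
      rw [lt_div_iff₀ hK0] at hφK
      have := mul_le_mul_of_nonneg_right hδabs hK0.le
      linarith
    have h7 : |δ| * K' < |δ| * ‖(δ : ℂ) * evA A v.1 + evA A v.2‖ := lt_of_lt_of_le h6 h5
    exact hKK.trans (lt_of_mul_lt_mul_left h7 hδn.le)

theorem norm_fPoly (A : ℂˣ) (hA : ‖(A : ℂ)‖ = 1) {P : Type} [Fintype P] [DecidableEq P] [Nonempty P]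
    (D : Diagram P) (U : UDiagram P) (h : Orients D U) : ‖evA A D.fPoly‖ = ‖evA A U.std.bracket‖ := by
  rw [← T6.bracket_orients D U h]
  unfold Diagram.fPoly
  have hT : ‖evA A (T (-3 * D.writhe))‖ = 1 := by
    rw [evA_T, Units.val_zpow_eq_zpow_val, norm_zpow, hA, one_zpow]
  by_cases hw : Even D.writhe
  · rw [if_pos hw, map_mul, map_mul, norm_mul, norm_mul, hT, map_one, norm_one]
    ring
  · rw [if_neg hw, map_mul, map_mul, norm_mul, norm_mul, hT, map_neg, norm_neg, map_one, norm_one]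
    ring

/-- Highly twisted arborescent links. -/
theorem final (n : ℕ) (K : ℝ) : ∃ C : ℕ, ∀ t : Tree, Reduced t → num t ≤ n → Twisted C t →
    ∀ D : Diagram t.tangle.P, Orients D t.link →
      (∃ A : ℂˣ, ‖(A : ℂ)‖ = 1 ∧ K < ‖evA A D.fPoly‖) ∧ K < (coeffSum D.fPoly : ℝ) ∧
      ∀ (ε k : ℤ) (j : ℕ), ε = 1 ∨ ε = -1 → D.fPoly ≠ LaurentPolynomial.C ε * T k * dd ^ j := by
  obtain ⟨C, hC⟩ := bracket_large n (max K 1)
  refine ⟨C, fun t ht hn htC D hD => ?_⟩
  have : Nonempty t.tangle.P := ⟨t.tangle.corner false false⟩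
  obtain ⟨A, hA, hd, hK⟩ := hC t ht hn htC
  rw [← norm_fPoly A hA D t.link hD] at hK
  refine ⟨⟨A, hA, lt_of_le_of_lt (le_max_left _ _) hK⟩,
    lt_of_le_of_lt (le_max_left _ _) (hK.trans_le (norm_evA_le A hA _)), fun ε k j hε h => ?_⟩
  have h1 : 1 < ‖evA A D.fPoly‖ := lt_of_le_of_lt (le_max_right _ _) hK
  have h2 : ‖evA A D.fPoly‖ ≤ 1 := by
    rw [h, map_mul, map_mul, evA_C, evA_T, map_pow, norm_mul, norm_mul, norm_pow,
      Units.val_zpow_eq_zpow_val, norm_zpow, hA, one_zpow, mul_one]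
    have h3 : ‖((ε : ℤ) : ℂ)‖ = 1 := by
      rcases hε with rfl | rfl <;> simp
    rw [h3, one_mul]
    exact pow_le_one₀ (norm_nonneg _) hd
  linarith

end Pool.Agent.J4.H92.HT
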