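import Mathlib

/-!
# The recursion for the coordinates of the tangles of trees near the point where the loop value is `0`
-/

set_option autoImplicit false

namespace Pool.Agent.J4.H92.HT

open Complex

/-- The first type: `δ β = ρ α` with `|1 + ρ| ≤ 1 + ε`, `|ρ| ≥ ν`, `|α| ≥ m`. -/
def TI (δ ε ν m : ℝ) (α β : ℂ) : Prop :=
  ∃ ρ : ℂ, δ * β = ρ * α ∧ ‖1 + ρ‖ ≤ 1 + ε ∧ ν ≤ ‖ρ‖ ∧ m ≤ ‖α‖

/-- The second type: `β = δ u α` with `Re u ≤ -k/2 + ε`, `|u| ≤ U`, `|α| |δ|^k ≥ m`. -/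
def TII (k : ℕ) (δ ε U m : ℝ) (α β : ℂ) : Prop :=
  ∃ u : ℂ, β = δ * u * α ∧ u.re ≤ -(k / 2 : ℝ) + ε ∧ ‖u‖ ≤ U ∧ m ≤ ‖α‖ * |δ| ^ k

theorem TI.mono {δ ε ν m ε' ν' m' : ℝ} {α β : ℂ} (h : TI δ ε ν m α β) (h1 : ε ≤ ε') (h2 : ν' ≤ ν)
    (h3 : m' ≤ m) : TI δ ε' ν' m' α β := by
  obtain ⟨ρ, a, b, c, d⟩ := h
  exact ⟨ρ, a, by linarith, by linarith, by linarith⟩

theorem TII.mono {k : ℕ} {δ ε U m ε' U' m' : ℝ} {α β : ℂ} (h : TII k δ ε U m α β) (h1 : ε ≤ ε')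
    (h2 : U ≤ U') (h3 : m' ≤ m) : TII k δ ε' U' m' α β := by
  obtain ⟨u, a, b, c, d⟩ := h
  exact ⟨u, a, by linarith, by linarith, by linarith⟩

theorem le_of_sq_le {a b : ℝ} (h : a ^ 2 ≤ b ^ 2) (hb : 0 ≤ b) : a ≤ b := by
  by_contra hc
  push Not at hc
  nlinarith

/-- `|1 + 1/u| ≤ 1 - 1/(4 U^2)` -/
theorem one_add_inv {u : ℂ} {U : ℝ} (h1 : u.re ≤ -(3 / 4)) (h2 : ‖u‖ ≤ U) :
    ‖1 + u⁻¹‖ ≤ 1 - 1 / (4 * U ^ 2) := by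
  have hu : u ≠ 0 := by
    intro h
    rw [h] at h1
    norm_num at h1
  have hn : 0 < ‖u‖ := norm_pos_iff.2 hu
  have hU : 0 < U := lt_of_lt_of_le hn h2
  have hn34 : 3 / 4 ≤ ‖u‖ := by
    have := Complex.abs_re_le_norm u
    have h3 : 3 / 4 ≤ |u.re| := by
      rw [abs_of_nonpos (by linarith)]
      linarith
    linarith
  have e1 : 1 + u⁻¹ = (u + 1) / u := by
    field_simp
  have h3 : ‖u + 1‖ ^ 2 = ‖u‖ ^ 2 + 2 * u.re + 1 := by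
    rw [Complex.sq_norm, Complex.sq_norm, Complex.normSq_apply, Complex.normSq_apply]
    simp
    ring
  have h4 : ‖1 + u⁻¹‖ ^ 2 ≤ 1 - 1 / (2 * U ^ 2) := by
    rw [e1, norm_div, div_pow, h3]
    have h5 : (‖u‖ ^ 2 + 2 * u.re + 1) / ‖u‖ ^ 2 ≤ (‖u‖ ^ 2 - 1 / 2) / ‖u‖ ^ 2 := by
      apply div_le_div_of_nonneg_right _ (by positivity)
      linarith
    have h6 : (‖u‖ ^ 2 - 1 / 2) / ‖u‖ ^ 2 = 1 - 1 / (2 * ‖u‖ ^ 2) := by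
      field_simp
    have h7 : 1 / (2 * U ^ 2) ≤ 1 / (2 * ‖u‖ ^ 2) := by
      apply one_div_le_one_div_of_le (by positivity)
      have : ‖u‖ ^ 2 ≤ U ^ 2 := pow_le_pow_left₀ hn.le h2 2
      linarith
    linarith
  have h8 : 1 / (4 * U ^ 2) ≤ 1 / 2 := by
    have h9 : (9 / 16 : ℝ) ≤ U ^ 2 := by nlinarith
    rw [div_le_div_iff₀ (by positivity) (by norm_num)]
    nlinarith
  have e2 : 1 / (2 * U ^ 2) = 2 * (1 / (4 * U ^ 2)) := by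
    field_simp
    norm_num
  rw [e2] at h4
  have h10 : ‖1 + u⁻¹‖ ^ 2 ≤ (1 - 1 / (4 * U ^ 2)) ^ 2 := by
    generalize 1 / (4 * U ^ 2) = x at h4
    have e3 : (1 - x) ^ 2 = 1 - 2 * x + x ^ 2 := by ring
    have h11 := sq_nonneg x
    linarith
  exact le_of_sq_le h10 (by linarith)

/-- `Re (1/ρ) ≤ -1/2 + (ε + ε^2/2) / ν^2` -/
theorem re_inv {ρ : ℂ} {ε ν : ℝ} (hε : 0 ≤ ε) (hν : 0 < ν) (h1 : ‖1 + ρ‖ ≤ 1 + ε) (h2 : ν ≤ ‖ρ‖) :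
    (ρ⁻¹).re ≤ -(1 / 2) + (ε + ε ^ 2 / 2) / ν ^ 2 := by
  have hn : 0 < ‖ρ‖ := lt_of_lt_of_le hν h2
  have h3 : ‖1 + ρ‖ ^ 2 = 1 + 2 * ρ.re + ‖ρ‖ ^ 2 := by
    rw [Complex.sq_norm, Complex.sq_norm, Complex.normSq_apply, Complex.normSq_apply]
    simp
    ring
  have h4 : ‖1 + ρ‖ ^ 2 ≤ (1 + ε) ^ 2 := pow_le_pow_left₀ (norm_nonneg _) h1 2
  have h5 : ρ.re ≤ -(1 / 2) * ‖ρ‖ ^ 2 + (ε + ε ^ 2 / 2) := by nlinarith
  rw [Complex.inv_re, ← Complex.sq_norm]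
  have h6 : ρ.re / ‖ρ‖ ^ 2 ≤ (-(1 / 2) * ‖ρ‖ ^ 2 + (ε + ε ^ 2 / 2)) / ‖ρ‖ ^ 2 :=
    div_le_div_of_nonneg_right h5 (by positivity)
  have h7 : (-(1 / 2) * ‖ρ‖ ^ 2 + (ε + ε ^ 2 / 2)) / ‖ρ‖ ^ 2 = -(1 / 2) + (ε + ε ^ 2 / 2) / ‖ρ‖ ^ 2 := by
    field_simp
  have h8 : (ε + ε ^ 2 / 2) / ‖ρ‖ ^ 2 ≤ (ε + ε ^ 2 / 2) / ν ^ 2 := by
    apply div_le_div_of_nonneg_left (by positivity) (by positivity)
    exact pow_le_pow_left₀ hν.le h2 2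
  linarith

/-- both of the first type -/
theorem caseA {δ ε ν m : ℝ} (hδ : δ ≠ 0) (hδ1 : |δ| ≤ 1) (hν : 0 < ν) (hm : 0 < m) (hε : 0 < ε)
    (hε1 : ε ≤ 1) (hq1 : δ ^ 2 ≤ ν * ε / 4) (hq2 : δ ^ 2 ≤ ν ^ 2 / 4) {av bv ac bc : ℂ}
    (hv : TI δ (ε / 2) ν m av bv) (hc : TI δ (ε / 2) ν m ac bc) :
    TI δ ε (ν / 2) (m * (m * ν)) (av * bc) (av * ac + bv * bc + δ * (bv * ac)) := by
  obtain ⟨ρ, h1, h2, h3, h4⟩ := hv
  obtain ⟨σ, g1, g2, g3, g4⟩ := hc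
  have hσ : 0 < ‖σ‖ := lt_of_lt_of_le hν g3
  have hσ0 : σ ≠ 0 := norm_pos_iff.1 hσ
  have hδc : (δ : ℂ) ≠ 0 := by exact_mod_cast hδ
  have hδn : 0 < |δ| := abs_pos.2 hδ
  have e1 : ac = δ * bc / σ := by
    field_simp
    linear_combination -g1
  have e2 : bv = ρ * av / δ := by
    field_simp
    linear_combination h1
  have hqn : ‖(δ : ℂ) ^ 2 / σ‖ ≤ δ ^ 2 / ν := by
    rw [norm_div, norm_pow, Complex.norm_real, Real.norm_eq_abs, sq_abs]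
    exact div_le_div_of_nonneg_left (by positivity) hν g3
  have hq1' : δ ^ 2 / ν ≤ ε / 4 := by
    rw [div_le_iff₀ hν]
    linarith
  have hq2' : δ ^ 2 / ν ≤ ν / 4 := by
    rw [div_le_iff₀ hν]
    nlinarith
  refine ⟨ρ + (1 + ρ) * (δ ^ 2 / σ), ?_, ?_, ?_, ?_⟩
  · rw [e1, e2]
    field_simp
    ring
  · have e3 : 1 + (ρ + (1 + ρ) * (δ ^ 2 / σ)) = (1 + ρ) * (1 + δ ^ 2 / σ) := by ring
    rw [e3, norm_mul]
    have h5 : ‖1 + (δ : ℂ) ^ 2 / σ‖ ≤ 1 + ε / 4 := by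
      refine (norm_add_le _ _).trans ?_
      rw [norm_one]
      linarith
    have h6 := mul_le_mul h2 h5 (norm_nonneg _) (by linarith)
    nlinarith
  · have h5 : ‖(1 + ρ) * ((δ : ℂ) ^ 2 / σ)‖ ≤ ν / 2 := by
      rw [norm_mul]
      have := mul_le_mul h2 (hqn.trans hq2') (norm_nonneg _) (by linarith)
      nlinarith
    have h6 : ‖ρ‖ ≤ ‖ρ + (1 + ρ) * ((δ : ℂ) ^ 2 / σ)‖ + ‖(1 + ρ) * ((δ : ℂ) ^ 2 / σ)‖ := by
      have := norm_sub_le (ρ + (1 + ρ) * ((δ : ℂ) ^ 2 / σ)) ((1 + ρ) * ((δ : ℂ) ^ 2 / σ))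
      rwa [add_sub_cancel_right] at this
    linarith
  · rw [norm_mul]
    have h5 : ‖bc‖ = ‖σ‖ * ‖ac‖ / |δ| := by
      have := congrArg norm g1
      rw [norm_mul, norm_mul, Complex.norm_real, Real.norm_eq_abs] at this
      field_simp
      linarith
    have h6 : m * ν ≤ ‖bc‖ := by
      rw [h5, le_div_iff₀ hδn]
      have h7 : ν * m ≤ ‖σ‖ * ‖ac‖ := mul_le_mul g3 g4 hm.le (norm_nonneg _)
      have h8 : m * ν * |δ| ≤ m * ν * 1 := mul_le_mul_of_nonneg_left hδ1 (by positivity)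
      linarith
    exact mul_le_mul h4 h6 (by positivity) (norm_nonneg _)

/-- the left tangle has `δ β = ρ α`, the right one is of the second type with `k ≥ 2` -/
theorem caseB {δ ε m M U : ℝ} {j : ℕ} (hδ : δ ≠ 0) (hδ1 : |δ| ≤ 1) (hm : 0 < m) (hj : 2 ≤ j)
    (hε1 : ε ≤ 1 / 4) {av bv ac bc ρ : ℂ} (h1 : δ * bv = ρ * av)
    (h2 : ‖1 + ρ‖ ≤ 1 + 1 / (8 * U ^ 2)) (h3 : M ≤ ‖av‖) (hc : TII j δ ε U m ac bc) :
    TI δ 0 (1 / (8 * U ^ 2)) (M * (m / 2)) (av * bc) (av * ac + bv * bc + δ * (bv * ac)) := by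
  obtain ⟨u, g1, g2, g3, g4⟩ := hc
  have hj' : (2 : ℝ) ≤ j := by exact_mod_cast hj
  have hure : u.re ≤ -(3 / 4) := by linarith
  have hu0 : u ≠ 0 := by
    intro h
    rw [h] at hure
    norm_num at hure
  have hδc : (δ : ℂ) ≠ 0 := by exact_mod_cast hδ
  have hδn : 0 < |δ| := abs_pos.2 hδ
  have hn34 : 3 / 4 ≤ ‖u‖ := by
    have := Complex.abs_re_le_norm u
    have h3 : 3 / 4 ≤ |u.re| := by
      rw [abs_of_nonpos (by linarith)]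
      linarith
    linarith
  have hU : 0 < U := by linarith
  have e2 : bv = ρ * av / δ := by
    field_simp
    linear_combination h1
  have h5 := one_add_inv hure g3
  have h6 : ‖1 + ((1 + ρ) * (1 + u⁻¹) - 1)‖ ≤ 1 - 1 / (8 * U ^ 2) := by
    have e3 : 1 + ((1 + ρ) * (1 + u⁻¹) - 1) = (1 + ρ) * (1 + u⁻¹) := by ring
    rw [e3, norm_mul]
    have h7 := mul_le_mul h2 h5 (norm_nonneg _) (by positivity)
    have e4 : 1 / (4 * U ^ 2) = 2 * (1 / (8 * U ^ 2)) := by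
      field_simp
      norm_num
    rw [e4] at h7
    have h8 : 0 < 1 / (8 * U ^ 2) := by positivity
    rw [e4] at h5
    nlinarith
  have h8 : 0 < 1 / (8 * U ^ 2) := by positivity
  refine ⟨(1 + ρ) * (1 + u⁻¹) - 1, ?_, ?_, ?_, ?_⟩
  · rw [g1, e2]
    field_simp
    ring
  · linarith
  · have h9 : (1 : ℝ) ≤ ‖1 + ((1 + ρ) * (1 + u⁻¹) - 1)‖ + ‖(1 + ρ) * (1 + u⁻¹) - 1‖ := by
      have := norm_sub_le (1 + ((1 + ρ) * (1 + u⁻¹) - 1)) ((1 + ρ) * (1 + u⁻¹) - 1)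
      rwa [add_sub_cancel_right, norm_one] at this
    linarith
  · rw [norm_mul]
    refine mul_le_mul h3 ?_ (by positivity) (norm_nonneg _)
    rw [g1, norm_mul, norm_mul, Complex.norm_real, Real.norm_eq_abs]
    have h10 : ‖ac‖ * |δ| ^ j ≤ ‖ac‖ * |δ| := by
      apply mul_le_mul_of_nonneg_left _ (norm_nonneg _)
      calc |δ| ^ j ≤ |δ| ^ 1 := pow_le_pow_of_le_one hδn.le hδ1 (by omega)
        _ = |δ| := pow_one _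
    have h11 : m ≤ ‖ac‖ * |δ| := g4.trans h10
    have h12 : (3 / 4) * (‖ac‖ * |δ|) ≤ ‖u‖ * (‖ac‖ * |δ|) :=
      mul_le_mul_of_nonneg_right hn34 (by positivity)
    nlinarith

/-- the left tangle is of the second type, the right one of the first type -/
theorem caseC {δ ε ε' m ν U : ℝ} {k : ℕ} (hδ : δ ≠ 0) (hδ1 : |δ| ≤ 1) (hm : 0 < m) (hν : 0 < ν)
    (hU : 0 < U) (hε' : 0 < ε') (hε1 : ε' ≤ 1) (h1 : ε' * (1 + 3 / (2 * ν ^ 2)) ≤ ε / 2)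
    (h2 : δ ^ 2 * U / ν ≤ ε / 2)
    {av bv ac bc : ℂ} (hv : TII k δ ε' U m av bv) (hc : TI δ ε' ν m ac bc) :
    TII (k + 1) δ ε (U + (1 + U) / ν) (m * (m * ν)) (av * bc) (av * ac + bv * bc + δ * (bv * ac)) := by
  obtain ⟨u, a1, a2, a3, a4⟩ := hv
  obtain ⟨σ, g1, g2, g3, g4⟩ := hc
  have hσ : 0 < ‖σ‖ := lt_of_lt_of_le hν g3
  have hσ0 : σ ≠ 0 := norm_pos_iff.1 hσ
  have hδc : (δ : ℂ) ≠ 0 := by exact_mod_cast hδ
  have hδn : 0 < |δ| := abs_pos.2 hδ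
  have e1 : ac = δ * bc / σ := by
    field_simp
    linear_combination -g1
  have hinv : ‖σ⁻¹‖ ≤ 1 / ν := by
    rw [norm_inv, ← one_div]
    exact one_div_le_one_div_of_le hν g3
  refine ⟨u + σ⁻¹ + δ ^ 2 * u * σ⁻¹, ?_, ?_, ?_, ?_⟩
  · rw [a1, e1]
    field_simp
    ring
  · have h3 := re_inv hε'.le hν g2 g3
    have h4 : ((δ : ℂ) ^ 2 * u * σ⁻¹).re ≤ ε / 2 := by
      refine (Complex.re_le_norm _).trans (le_trans ?_ h2)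
      rw [norm_mul, norm_mul, norm_pow, Complex.norm_real, Real.norm_eq_abs, sq_abs]
      have h5 : δ ^ 2 * ‖u‖ ≤ δ ^ 2 * U := mul_le_mul_of_nonneg_left a3 (by positivity)
      have h6 := mul_le_mul h5 hinv (norm_nonneg _) (by positivity)
      calc _ ≤ δ ^ 2 * U * (1 / ν) := h6
        _ = δ ^ 2 * U / ν := by ring
    rw [Complex.add_re, Complex.add_re]
    have h7 : (ε' + ε' ^ 2 / 2) / ν ^ 2 ≤ ε' * (3 / (2 * ν ^ 2)) := by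
      have h8 : ε' + ε' ^ 2 / 2 ≤ ε' * (3 / 2) := by nlinarith
      calc (ε' + ε' ^ 2 / 2) / ν ^ 2 ≤ ε' * (3 / 2) / ν ^ 2 :=
            div_le_div_of_nonneg_right h8 (by positivity)
        _ = ε' * (3 / (2 * ν ^ 2)) := by field_simp
    push_cast
    have h9 : ε' + ε' * (3 / (2 * ν ^ 2)) ≤ ε / 2 := by
      calc _ = ε' * (1 + 3 / (2 * ν ^ 2)) := by ring
        _ ≤ _ := h1
    linarith
  · have h3 : ‖u + σ⁻¹ + (δ : ℂ) ^ 2 * u * σ⁻¹‖ ≤ ‖u‖ + ‖σ⁻¹‖ + ‖(δ : ℂ) ^ 2 * u * σ⁻¹‖ :=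
      norm_add₃_le
    have h4 : ‖(δ : ℂ) ^ 2 * u * σ⁻¹‖ ≤ U * (1 / ν) := by
      rw [norm_mul, norm_mul, norm_pow, Complex.norm_real, Real.norm_eq_abs]
      have h5 : |δ| ^ 2 ≤ 1 := pow_le_one₀ hδn.le hδ1
      have h6 : |δ| ^ 2 * ‖u‖ ≤ 1 * U := mul_le_mul h5 a3 (norm_nonneg _) (by norm_num)
      rw [one_mul] at h6
      exact mul_le_mul h6 hinv (norm_nonneg _) hU.le
    calc _ ≤ U + 1 / ν + U * (1 / ν) := by linarith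
      _ = U + (1 + U) / ν := by ring
  · rw [norm_mul]
    have h5 : ‖bc‖ * |δ| = ‖σ‖ * ‖ac‖ := by
      have := congrArg norm g1
      rw [norm_mul, norm_mul, Complex.norm_real, Real.norm_eq_abs] at this
      linarith
    have e3 : ‖av‖ * ‖bc‖ * |δ| ^ (k + 1) = (‖av‖ * |δ| ^ k) * (‖ac‖ * ‖σ‖) := by
      rw [pow_succ]
      calc _ = (‖av‖ * |δ| ^ k) * (‖bc‖ * |δ|) := by ring
        _ = _ := by rw [h5]; ring
    rw [e3]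
    exact mul_le_mul a4 (mul_le_mul g4 g3 hν.le (norm_nonneg _)) (by positivity) (by positivity)

end Pool.Agent.J4.H92.HT
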