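import Pool.Agent.J4.H92.HT.Defs
import Pool.Agent.J4.H92.HT.Rec
import Pool.Agent.J4.H92.HT.Exist

/-!
# Highly twisted arborescent links
-/

set_option autoImplicit false

namespace Pool.Agent.J4.H92.HT

open LaurentPolynomial Pool.Agent.H891R2.Jones Pool.Agent.H891R2.MT Pool.Agent.H891R2.RF
open Pool.Agent.R811.Abc Pool.Agent.N569.AB Pool.Agent.N569.AO

/-- the value of a Laurent polynomial at `A` -/
noncomputable def evA (A : ℂˣ) : ℤ[T;T⁻¹] →+* ℂ := eval₂ (Int.castRingHom ℂ) A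

theorem evA_T (A : ℂˣ) (n : ℤ) : evA A (T n) = ((A ^ n : ℂˣ) : ℂ) := eval₂_T _ _ _

theorem evA_C (A : ℂˣ) (n : ℤ) : evA A (C n) = (n : ℂ) := by
  unfold evA
  rw [eval₂_C]
  rfl

theorem evA_row (A : ℂˣ) (a : ℤ) : evA A (C ((-1) ^ a.natAbs) * T (-3 * a)) =
    ((-1 : ℂ) ^ a.natAbs * ((A ^ (-4 * a) : ℂˣ) : ℂ)) * ((A ^ a : ℂˣ) : ℂ) := by
  rw [map_mul, evA_T, evA_C, mul_assoc, ← Units.val_mul, ← zpow_add]
  congr 2
  · push_cast
    rfl
  · congr 1
    ring

/-- the coordinates of the tangles, uniformly in all trees with at most `s` vertices -/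
theorem main (η : ℝ) (hη : 0 < η) (s : ℕ) : ∃ ν U m : ℝ, 0 < ν ∧ ν ≤ 1 ∧ 1 ≤ U ∧ 0 < m ∧ m ≤ 1 ∧
    ∀ ε : ℝ, 0 < ε → ε ≤ 1 → ∃ q : ℝ, 0 < q ∧ q ≤ 1 ∧ ∀ (A : ℂˣ) (δ : ℝ), ‖(A : ℂ)‖ = 1 → δ ≠ 0 →
      δ ^ 2 ≤ q → evA A dd = (δ : ℂ) → ∀ t : Tree, size t ≤ s → Red t → Far A η t →
        ∃ v : ℤ[T;T⁻¹] × ℤ[T;T⁻¹], Ten t.tangle v.1 v.2 ∧
          (typ t = none → TI δ ε ν m (evA A v.1) (evA A v.2)) ∧
          ∀ k, typ t = some k → TII k δ ε U m (evA A v.1) (evA A v.2) := by
  induction s with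
  | zero =>
    refine ⟨1, 1, 1, one_pos, le_rfl, le_rfl, one_pos, le_rfl, fun ε _ _ => ⟨1, one_pos, le_rfl, ?_⟩⟩
    intro A δ _ _ _ _ t ht
    have := size_pos t
    omega
  | succ s ih =>
    obtain ⟨ν, U, m, hν, hν1, hU, hm, hm1, H⟩ := ih
    have hU0 : 0 < U := by linarith
    have hκ : 0 < 1 / (8 * U ^ 2) := by positivity
    refine ⟨min η (min (ν / 2) (1 / (8 * U ^ 2))), U + (1 + U) / ν, m * (m * ν) / 2, ?_, ?_, ?_, ?_, ?_, ?_⟩
    · exact lt_min hη (lt_min (by linarith) hκ)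
    · exact (min_le_right _ _).trans ((min_le_left _ _).trans (by linarith))
    · have : 0 < (1 + U) / ν := by positivity
      linarith
    · positivity
    · have h1 : m * ν ≤ 1 := mul_le_one₀ hm1 hν.le hν1
      have h2 : m * (m * ν) ≤ 1 := mul_le_one₀ hm1 (by positivity) h1
      linarith
    intro ε hε hε1
    -- the choice of `ε'`
    obtain ⟨w, hw⟩ : ∃ w : ℝ, w = 1 + 3 / (2 * ν ^ 2) := ⟨_, rfl⟩
    have hw1 : 1 ≤ w := by
      rw [hw]
      have : 0 < 3 / (2 * ν ^ 2) := by positivity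
      linarith
    obtain ⟨ε', hε'⟩ : ∃ ε' : ℝ, ε' = min (min (ε / 2 / w) (1 / 4)) (1 / (8 * U ^ 2)) := ⟨_, rfl⟩
    have e1 : ε' ≤ ε / 2 / w := by rw [hε']; exact (min_le_left _ _).trans (min_le_left _ _)
    have e2 : ε' ≤ 1 / 4 := by rw [hε']; exact (min_le_left _ _).trans (min_le_right _ _)
    have e3 : ε' ≤ 1 / (8 * U ^ 2) := by rw [hε']; exact min_le_right _ _
    have e0 : 0 < ε' := by
      rw [hε']
      exact lt_min (lt_min (by positivity) (by norm_num)) hκ
    have e4 : ε' ≤ ε / 2 := e1.trans (by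
      rw [div_le_iff₀ (by linarith)]
      nlinarith)
    have e5 : ε' * (1 + 3 / (2 * ν ^ 2)) ≤ ε / 2 := by
      rw [← hw]
      exact (le_div_iff₀ (by linarith)).1 e1
    obtain ⟨q, hq, hq1, Hq⟩ := H ε' e0 (by linarith)
    refine ⟨min (min q (ν * ε / 4)) (min (ν ^ 2 / 4) (min (ν * ε / (2 * U)) (1 / (8 * U ^ 2) / U))),
      ?_, ?_, ?_⟩
    · exact lt_min (lt_min hq (by positivity)) (lt_min (by positivity) (lt_min (by positivity) (by positivity)))
    · exact (min_le_left _ _).trans ((min_le_left _ _).trans hq1)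
    intro A δ hA hδ hδq hdd t ht hred hfar
    have q0 : δ ^ 2 ≤ q := hδq.trans ((min_le_left _ _).trans (min_le_left _ _))
    have q1 : δ ^ 2 ≤ ν * ε / 4 := hδq.trans ((min_le_left _ _).trans (min_le_right _ _))
    have q2 : δ ^ 2 ≤ ν ^ 2 / 4 := hδq.trans ((min_le_right _ _).trans (min_le_left _ _))
    have q3 : δ ^ 2 ≤ ν * ε / (2 * U) :=
      hδq.trans ((min_le_right _ _).trans ((min_le_right _ _).trans (min_le_left _ _)))
    have q4 : δ ^ 2 ≤ 1 / (8 * U ^ 2) / U :=
      hδq.trans ((min_le_right _ _).trans ((min_le_right _ _).trans (min_le_right _ _)))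
    have hδ1 : |δ| ≤ 1 := by
      have : δ ^ 2 ≤ 1 := q0.trans hq1
      exact abs_le_one_iff_mul_self_le_one.2 (by nlinarith)
    have q3' : δ ^ 2 * U / ν ≤ ε / 2 := by
      rw [le_div_iff₀ (by positivity)] at q3
      rw [div_le_iff₀ hν]
      linarith
    have q4' : δ ^ 2 * U ≤ 1 / (8 * U ^ 2) := by
      rwa [le_div_iff₀ hU0] at q4
    have HH := Hq A δ hA hδ q0 hdd
    cases t with
    | row a =>
      obtain ⟨v, h1, h2, h3⟩ := Ten_row a
      have h4 := congrArg (evA A) h3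
      rw [evA_row, map_add, map_mul, hdd, h2, evA_T] at h4
      have hAa : ‖((A ^ a : ℂˣ) : ℂ)‖ = 1 := by
        rw [Units.val_zpow_eq_zpow_val, norm_zpow, hA, one_zpow]
      refine ⟨v, h1, ?_, ?_⟩
      · intro htyp
        have ha : a ≠ 0 := by
          intro h
          rw [h] at htyp
          simp [typ] at htyp
        have hfa := hfar.resolve_left ha
        refine ⟨(-1 : ℂ) ^ a.natAbs * ((A ^ (-4 * a) : ℂˣ) : ℂ) - 1, ?_, ?_, ?_, ?_⟩
        · rw [h2, evA_T]
          linear_combination h4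
        · have : 1 + ((-1 : ℂ) ^ a.natAbs * ((A ^ (-4 * a) : ℂˣ) : ℂ) - 1) =
            (-1 : ℂ) ^ a.natAbs * ((A ^ (-4 * a) : ℂˣ) : ℂ) := by ring
          rw [this, norm_mul, norm_pow, norm_neg, norm_one, one_pow, one_mul,
            Units.val_zpow_eq_zpow_val, norm_zpow, hA, one_zpow]
          linarith
        · exact (min_le_left _ _).trans hfa
        · rw [h2, evA_T, hAa]
          have h1 : m * ν ≤ 1 := mul_le_one₀ hm1 hν.le hν1
          have h2 : m * (m * ν) ≤ 1 := mul_le_one₀ hm1 (by positivity) h1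
          linarith
      · intro k hk
        obtain ⟨h5, h6⟩ := typ_some _ k hk
        have ha : a = 0 := h5
        have hk0 : k = 0 := h6.symm
        subst ha hk0
        have hδc : (δ : ℂ) ≠ 0 := by exact_mod_cast hδ
        have h7 : evA A v.2 = 0 := by
          have : (δ : ℂ) * evA A v.2 = 0 := by
            simp only [Int.natAbs_zero, pow_zero, mul_zero, zpow_zero, Units.val_one, mul_one] at h4
            linear_combination h4
          exact (mul_eq_zero.1 this).resolve_left hδc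
        refine ⟨0, ?_, ?_, ?_, ?_⟩
        · rw [h7]
          simp
        · simp
          exact hε.le
        · rw [norm_zero]
          have : 0 < (1 + U) / ν := by positivity
          linarith
        · rw [h2, evA_T, hAa, pow_zero]
          have h1 : m * ν ≤ 1 := mul_le_one₀ hm1 hν.le hν1
          have h2 : m * (m * ν) ≤ 1 := mul_le_one₀ hm1 (by positivity) h1
          linarith
    | graft v c =>
      obtain ⟨hv, hc, hd⟩ := hred
      have hsv := size_pos v
      have hsc := size_pos c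
      have hst : size v + size c ≤ s + 1 := ht
      obtain ⟨p, p1, p2, p3⟩ := HH v (by omega) hv hfar.1
      obtain ⟨r, r1, r2, r3⟩ := HH c (by omega) hc hfar.2
      have m1 : m * (m * ν) / 2 ≤ m * (m * ν) := by
        have : 0 < m * (m * ν) := by positivity
        linarith
      have m2 : m * (m * ν) / 2 ≤ m * (m / 2) := by
        have : m * (m * ν) ≤ m * (m * 1) :=
          mul_le_mul_of_nonneg_left (mul_le_mul_of_nonneg_left hν1 hm.le) hm.le
        linarith
      have n1 : min η (min (ν / 2) (1 / (8 * U ^ 2))) ≤ ν / 2 :=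
        (min_le_right _ _).trans (min_le_left _ _)
      have n2 : min η (min (ν / 2) (1 / (8 * U ^ 2))) ≤ 1 / (8 * U ^ 2) :=
        (min_le_right _ _).trans (min_le_right _ _)
      refine ⟨hs p (r.2, r.1), Ten_hsum _ _ _ _ _ _ p1 (Ten_rot _ _ _ r1), ?_, ?_⟩
      · intro htyp
        show TI δ ε _ _ (evA A (p.1 * r.2)) (evA A (p.1 * r.1 + p.2 * r.2 + dd * (p.2 * r.1)))
        rw [map_mul, map_add, map_add, map_mul, map_mul, map_mul, map_mul, hdd]
        simp only [typ] at htyp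
        rcases hct : typ c with _ | j
        · -- c of type I
          rw [hct, if_pos rfl] at htyp
          have hvt : typ v = none := Option.map_eq_none_iff.1 htyp
          exact (caseA hδ hδ1 hν hm hε hε1 q1 q2 ((p2 hvt).mono e4 le_rfl le_rfl)
            ((r2 hct).mono e4 le_rfl le_rfl)).mono le_rfl n1 m1
        · obtain ⟨hcw, hck⟩ := typ_some c j hct
          have hj : 2 ≤ j := by
            rcases hd with hd | hd
            · exact absurd hcw hd
            · omega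
          rcases hvt : typ v with _ | k
          · obtain ⟨ρ, a1, a2, a3, a4⟩ := p2 hvt
            exact (caseB hδ hδ1 hm hj e2 a1 (by linarith) a4 (r3 j hct)).mono hε.le n2 m2
          · obtain ⟨u, a1, a2, a3, a4⟩ := p3 k hvt
            refine (caseB (ρ := (δ : ℂ) ^ 2 * u) hδ hδ1 hm hj e2 ?_ ?_ ?_ (r3 j hct)).mono hε.le n2 m2
            · rw [a1]
              ring
            · refine (norm_add_le _ _).trans ?_
              rw [norm_one, norm_mul, norm_pow, Complex.norm_real, Real.norm_eq_abs, sq_abs]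
              have : δ ^ 2 * ‖u‖ ≤ δ ^ 2 * U := mul_le_mul_of_nonneg_left a3 (by positivity)
              linarith
            · refine a4.trans ?_
              have : |δ| ^ k ≤ 1 := pow_le_one₀ (abs_nonneg _) hδ1
              have h6 := mul_le_mul_of_nonneg_left this (norm_nonneg (evA A p.1))
              linarith
      · intro k hk
        show TII k δ ε _ _ (evA A (p.1 * r.2)) (evA A (p.1 * r.1 + p.2 * r.2 + dd * (p.2 * r.1)))
        rw [map_mul, map_add, map_add, map_mul, map_mul, map_mul, map_mul, hdd]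
        simp only [typ] at hk
        split_ifs at hk with hct
        obtain ⟨j, hj, rfl⟩ := Option.map_eq_some_iff.1 hk
        exact (caseC hδ hδ1 hm hν hU0 e0 (by linarith) e5 q3' (p3 j hj) (r2 hct)).mono le_rfl le_rfl m1
    | insert v S τ => exact absurd hred (fun h => h)

/-- the bracket of the link is large -/
theorem root {δ ε ν U m : ℝ} {α β : ℂ} {τ : Option ℕ} (hδ : δ ≠ 0) (hδ1 : |δ| ≤ 1) (hν : 0 < ν) (hν1 : ν ≤ 1)
    (hm : 0 < m) (hε : ε ≤ 1 / 4) (hq : δ ^ 2 ≤ ν / 2) (h1 : τ = none → TI δ ε ν m α β)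
    (h2 : ∀ k, τ = some k → TII k δ ε U m α β) (hk : ∀ k, τ = some k → 3 ≤ k) :
    ν * m / 4 ≤ |δ| * ‖(δ : ℂ) * α + β‖ := by
  have hδn : 0 < |δ| := abs_pos.2 hδ
  rcases τ with _ | k
  · obtain ⟨ρ, a1, a2, a3, a4⟩ := h1 rfl
    have e1 : |δ| * ‖(δ : ℂ) * α + β‖ = ‖(ρ + (δ : ℂ) ^ 2) * α‖ := by
      have : (ρ + (δ : ℂ) ^ 2) * α = δ * (δ * α + β) := by linear_combination -a1
      rw [this, norm_mul, Complex.norm_real, Real.norm_eq_abs]
    rw [e1, norm_mul]
    have h3 : ν / 2 ≤ ‖ρ + (δ : ℂ) ^ 2‖ := by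
      have h4 := norm_sub_le (ρ + (δ : ℂ) ^ 2) ((δ : ℂ) ^ 2)
      rw [add_sub_cancel_right, norm_pow, Complex.norm_real, Real.norm_eq_abs, sq_abs] at h4
      linarith
    have h5 := mul_le_mul h3 a4 hm.le (norm_nonneg _)
    have h6 : 0 < ν * m := by positivity
    linarith
  · obtain ⟨u, a1, a2, a3, a4⟩ := h2 k rfl
    have h3k := hk k rfl
    have hkr : (3 : ℝ) ≤ k := by exact_mod_cast h3k
    have e1 : |δ| * ‖(δ : ℂ) * α + β‖ = ‖1 + u‖ * (|δ| ^ 2 * ‖α‖) := by
      have : (δ : ℂ) * α + β = (1 + u) * (δ * α) := by rw [a1]; ring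
      rw [this, norm_mul, norm_mul, Complex.norm_real, Real.norm_eq_abs]
      ring
    rw [e1]
    have h3 : 1 / 4 ≤ ‖1 + u‖ := by
      have h4 := Complex.abs_re_le_norm (1 + u)
      rw [Complex.add_re, Complex.one_re] at h4
      have h5 : 1 / 4 ≤ |1 + u.re| := by
        rw [abs_of_nonpos (by linarith)]
        linarith
      linarith
    have h4 : m ≤ |δ| ^ 2 * ‖α‖ := by
      refine a4.trans ?_
      rw [mul_comm]
      apply mul_le_mul_of_nonneg_right _ (norm_nonneg _)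
      exact pow_le_pow_of_le_one hδn.le hδ1 (by omega)
    have h5 := mul_le_mul h3 h4 hm.le (norm_nonneg _)
    have h6 : ν * m ≤ 1 * m := mul_le_mul_of_nonneg_right hν1 hm.le
    linarith

/-- the point `A = exp (i (π - φ) / 4)` -/
theorem point (φ : ℝ) : ∃ A : ℂˣ, ‖(A : ℂ)‖ = 1 ∧ evA A dd = ((-2 * Real.sin (φ / 2) : ℝ) : ℂ) ∧
    ∀ a : ℤ, (-1 : ℂ) ^ a.natAbs * ((A ^ (-4 * a) : ℂˣ) : ℂ) = Complex.exp ((a * φ : ℝ) * Complex.I) := by
  obtain ⟨ψ, hψ⟩ : ∃ ψ : ℝ, ψ = (Real.pi - φ) / 4 := ⟨_, rfl⟩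
  have hz : ∀ n : ℤ, ((Units.mk0 (Complex.exp (ψ * Complex.I)) (Complex.exp_ne_zero _) ^ n : ℂˣ) : ℂ) =
      Complex.exp ((n * ψ : ℝ) * Complex.I) := by
    intro n
    rw [Units.val_zpow_eq_zpow_val, Units.val_mk0, ← Complex.exp_int_mul]
    congr 1
    push_cast
    ring
  refine ⟨Units.mk0 (Complex.exp (ψ * Complex.I)) (Complex.exp_ne_zero _), ?_, ?_, ?_⟩
  · rw [Units.val_mk0, Complex.norm_exp_ofReal_mul_I]
  · unfold dd
    rw [map_sub, map_neg, evA_T, evA_T, hz, hz]
    have h1 : Real.sin (φ / 2) = Real.cos (2 * ψ) := by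
      rw [hψ, ← Real.cos_pi_div_two_sub]
      congr 1
      ring
    rw [h1]
    push_cast
    rw [Complex.cos]
    have h2 : ((2 : ℂ) * ψ * Complex.I) = 2 * ψ * Complex.I := rfl
    ring_nf
  · intro a
    rw [hz]
    have h1 : (-1 : ℂ) ^ a.natAbs = Complex.exp ((a * Real.pi : ℝ) * Complex.I) := by
      have h2 : (-1 : ℂ) ^ a = Complex.exp ((a * Real.pi : ℝ) * Complex.I) := by
        rw [← Complex.exp_pi_mul_I, ← Complex.exp_int_mul]
        congr 1
        push_cast
        ring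
      rw [← h2]
      rcases Int.natAbs_eq a with h | h
      · conv_rhs => rw [h]
        rw [zpow_natCast]
      · conv_rhs => rw [h]
        rw [zpow_neg, zpow_natCast, ← inv_pow]
        norm_num
    rw [h1, ← Complex.exp_add]
    congr 1
    rw [hψ]
    push_cast
    ring

end Pool.Agent.J4.H92.HT
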